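import Mathlib

namespace Pool.Agent.H.MP_09b497_an

open Finset
open scoped Classical

variable {G : Type*} [Group G]

/-- `f` is absolutely summable. -/
def L1 (f : G → ℂ) : Prop := Summable fun g => ‖f g‖

/-- The `ℓ₁` norm. -/
noncomputable def nrm (f : G → ℂ) : ℝ := ∑' g, ‖f g‖

/-- Convolution. -/
noncomputable def conv (f h : G → ℂ) : G → ℂ := fun x => ∑' y, f y * h (y⁻¹ * x)

def Sid (S : Finset G) : Prop := ∀ w, #{z ∈ S.offDiag | z.1⁻¹ * z.2 = w} ≤ 2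

theorem exSid [Infinite G] (n : ℕ) : ∃ S : Finset G, #S = n ∧ Sid S := by
  induction n with
  | zero => exact ⟨∅, rfl, fun w => by simp⟩
  | succ n ih =>
    obtain ⟨S, hS, h⟩ := ih
    obtain ⟨x, hx⟩ := Infinite.exists_notMem_finset
      (S ∪ (S ×ˢ S ×ˢ S).image fun z => z.1 * z.2.1⁻¹ * z.2.2)
    simp only [mem_union, mem_image, mem_product, not_or, not_exists, not_and] at hx
    refine ⟨insert x S, by rw [card_insert_of_notMem hx.1, hS], fun w => ?_⟩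
    by_cases hw : ∃ z ∈ S.offDiag, z.1⁻¹ * z.2 = w
    · obtain ⟨z, hz, rfl⟩ := hw
      rw [mem_offDiag] at hz
      refine le_trans (card_le_card fun y hy => ?_) (h (z.1⁻¹ * z.2))
      simp only [mem_filter, mem_offDiag, mem_insert] at hy ⊢
      obtain ⟨⟨h1 | h1, h2 | h2, h3⟩, h4⟩ := hy
      · exact (h3 (h1.trans h2.symm)).elim
      · refine (hx.2 (y.2, z.2, z.1) ⟨h2, hz.2.1, hz.1⟩ ?_).elim
        rw [← h1, mul_assoc, ← inv_inv z.1, ← mul_inv_rev, ← h4]; simp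
      · refine (hx.2 (y.1, z.1, z.2) ⟨h1, hz.1, hz.2.1⟩ ?_).elim
        rw [← h2, mul_assoc, ← h4]; simp
      · exact ⟨⟨h1, h2, h3⟩, h4⟩
    · refine le_trans (card_le_card (t := {(x, x * w), (x * w⁻¹, x)}) fun y hy => ?_) card_le_two
      simp only [mem_filter, mem_offDiag, mem_insert, mem_singleton] at hy ⊢
      obtain ⟨⟨h1 | h1, h2 | h2, h3⟩, h4⟩ := hy
      · exact (h3 (h1.trans h2.symm)).elim
      · left; ext <;> simp [← h1, ← h4]
      · right; ext <;> simp [← h2, ← h4]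
      · exact (hw ⟨y, mem_offDiag.2 ⟨h1, h2, h3⟩, h4⟩).elim

theorem fin_le {ι : Type*} {q : G → ℝ} (h0 : ∀ g, 0 ≤ q g) (hq : Summable q) (s : Finset ι)
    (e : ι → G) (he : Set.InjOn e s) : ∑ i ∈ s, q (e i) ≤ ∑' g, q g := by
  rw [← sum_image he]
  exact hq.sum_le_tsum _ fun g _ => h0 g

theorem sid_sum {S : Finset G} (hS : Sid S) {q : G → ℝ} (h0 : ∀ g, 0 ≤ q g) (hq : Summable q) :
    ∑ u ∈ S, ∑ v ∈ S.erase u, q (u⁻¹ * v) ≤ 2 * ∑' g, q g := by
  rw [← sum_finset_product S.offDiag S (fun u => S.erase u)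
    (f := fun z => q (z.1⁻¹ * z.2)) (by simp [mem_offDiag]; tauto),
    sum_comp q fun z : G × G => z.1⁻¹ * z.2]
  refine le_trans (sum_le_sum (g := fun w => 2 * q w) fun w _ => ?_) ?_
  · rw [nsmul_eq_mul]
    exact mul_le_mul_of_nonneg_right (by exact_mod_cast hS w) (h0 w)
  · rw [← mul_sum]
    exact mul_le_mul_of_nonneg_left (hq.sum_le_tsum _ fun g _ => h0 g) (by norm_num)

theorem sumb {p φ : G → ℝ} (h0 : ∀ g, 0 ≤ p g) (hp : Summable p) {C : ℝ} (h1 : ∀ g, 0 ≤ φ g)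
    (h2 : ∀ g, φ g ≤ C) : Summable (fun g => p g * φ g) ∧
      ∑' g, p g * φ g ≤ (∑' g, p g) * C := by
  have h : ∀ g, p g * φ g ≤ p g * C := fun g => mul_le_mul_of_nonneg_left (h2 g) (h0 g)
  have h3 := Summable.of_nonneg_of_le (fun g => mul_nonneg (h0 g) (h1 g)) h (hp.mul_right C)
  exact ⟨h3, (h3.tsum_le_tsum h (hp.mul_right C)).trans tsum_mul_right.le⟩

theorem bil {S : Finset G} (hS : Sid S) {p q : G → ℝ} (p0 : ∀ g, 0 ≤ p g) (hp : Summable p)
    (q0 : ∀ g, 0 ≤ q g) (hq : Summable q) (p2 : ∑' g, p g ≤ 2) (q2 : ∑' g, q g ≤ 2)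
    {γ l : ℝ} (pγ : ∀ g, p g ≤ γ) (qγ : ∀ g, q g ≤ γ) (hl : 0 < l) (g : G) :
    Summable (fun h => p h * ∑ u ∈ S, q (h⁻¹ * (u * g))) ∧
      ∑' h, p h * ∑ u ∈ S, q (h⁻¹ * (u * g)) ≤ 2 * l + 12 * γ / l := by
  have hγ : 0 ≤ γ := (p0 1).trans (pγ 1)
  have hQ : ∀ h, ∑ u ∈ S, q (h⁻¹ * (u * g)) ≤ 2 := fun h =>
    (fin_le q0 hq S _ fun a _ b _ hab => by simpa using hab).trans q2
  have hQ0 : ∀ h, 0 ≤ ∑ u ∈ S, q (h⁻¹ * (u * g)) := fun h => sum_nonneg fun _ _ => q0 _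
  have hs := (sumb p0 hp hQ0 hQ).1
  refine ⟨hs, ?_⟩
  have qb : ∀ k, q k ≤ 2 := fun k => (hq.le_tsum k fun _ _ => q0 _).trans q2
  let e : G → G ≃ G := fun u => (Equiv.inv G).trans (Equiv.mulRight (u * g))
  have e1 : ∀ u v h, q (h⁻¹ * (u * g)) * q (h⁻¹ * (v * g)) =
      (fun k => q k * q (k * g⁻¹ * (u⁻¹ * v) * g)) (e u h) := fun u v h => by
    simp [e, mul_assoc]
  have s1 : ∀ u v, Summable fun k => q k * q (k * g⁻¹ * (u⁻¹ * v) * g) := fun u v =>
    (sumb q0 hq (fun _ => q0 _) fun _ => qb _).1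
  have s2 : ∀ u v, Summable fun h => q (h⁻¹ * (u * g)) * q (h⁻¹ * (v * g)) := fun u v => by
    simp only [e1]; exact (e u).summable_iff.2 (s1 u v)
  set R : G → ℝ := fun h => ∑ u ∈ S, ∑ v ∈ S.erase u, q (h⁻¹ * (u * g)) * q (h⁻¹ * (v * g))
  have sR : Summable R := summable_sum fun u _ => summable_sum fun v _ => s2 u v
  have bR : ∑' h, R h ≤ 8 := by
    have a1 : ∑' h, R h = ∑' k, q k * ∑ u ∈ S, ∑ v ∈ S.erase u, q (k * g⁻¹ * (u⁻¹ * v) * g) := by
      simp only [R, mul_sum]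
      rw [Summable.tsum_finsetSum fun u _ => summable_sum fun v _ => s2 u v,
        Summable.tsum_finsetSum fun u _ => summable_sum fun v _ => s1 u v]
      refine sum_congr rfl fun u _ => ?_
      rw [Summable.tsum_finsetSum fun v _ => s2 u v, Summable.tsum_finsetSum fun v _ => s1 u v]
      refine sum_congr rfl fun v _ => ?_
      simp only [e1]
      exact (e u).tsum_eq fun k => q k * q (k * g⁻¹ * (u⁻¹ * v) * g)
    rw [a1]
    refine (sumb q0 hq (C := 4) (fun k => sum_nonneg fun _ _ => sum_nonneg fun _ _ => q0 _)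
      fun k => ?_).2.trans (by linarith)
    let e' : G ≃ G := (Equiv.mulLeft (k * g⁻¹)).trans (Equiv.mulRight g)
    have := sid_sum hS (q := fun w => q (e' w)) (fun _ => q0 _) (e'.summable_iff.2 hq)
    rw [e'.tsum_eq q] at this
    exact this.trans (by linarith)
  have pt : ∀ h, p h * ∑ u ∈ S, q (h⁻¹ * (u * g)) ≤ p h * (l + 2 * γ / l) + γ / l * R h := by
    intro h
    have R0 : 0 ≤ R h := sum_nonneg fun _ _ => sum_nonneg fun _ _ => mul_nonneg (q0 _) (q0 _)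
    have a1 : (∑ u ∈ S, q (h⁻¹ * (u * g))) ^ 2 ≤ 2 * γ + R h := by
      rw [sq, sum_mul_sum]
      calc _ ≤ ∑ u ∈ S, (γ * q (h⁻¹ * (u * g)) +
            ∑ v ∈ S.erase u, q (h⁻¹ * (u * g)) * q (h⁻¹ * (v * g))) := by
            refine sum_le_sum fun u hu => ?_
            rw [← add_sum_erase S _ hu]
            gcongr
            exacts [q0 _, qγ _]
        _ ≤ _ := by
            rw [sum_add_distrib, ← mul_sum]
            nlinarith [hQ h]
    have a2 := hQ0 h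
    generalize ∑ u ∈ S, q (h⁻¹ * (u * g)) = Q at *
    have a3 : Q ≤ l + (2 * γ + R h) / l := by
      rw [← sub_le_iff_le_add', le_div_iff₀ hl]; nlinarith [sq_nonneg (Q - l)]
    have a4 : p h * (R h / l) ≤ γ * (R h / l) :=
      mul_le_mul_of_nonneg_right (pγ h) (by positivity)
    calc _ ≤ p h * (l + (2 * γ + R h) / l) := mul_le_mul_of_nonneg_left a3 (p0 h)
      _ = p h * (l + 2 * γ / l) + p h * (R h / l) := by ring
      _ ≤ _ := by rw [show γ / l * R h = γ * (R h / l) by ring]; linarith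
  refine (hs.tsum_le_tsum pt ((hp.mul_right _).add (sR.mul_left _))).trans ?_
  rw [(hp.mul_right _).tsum_add (sR.mul_left _), tsum_mul_right, tsum_mul_left]
  have a1 : 0 ≤ γ / l := by positivity
  have a2 : (∑' g, p g) * (l + 2 * γ / l) ≤ 2 * (l + 2 * γ / l) := by gcongr
  have a3 : γ / l * ∑' h, R h ≤ γ / l * 8 := by gcongr
  have a4 : 12 * γ / l = 12 * (γ / l) := by ring
  have a5 : 2 * γ / l = 2 * (γ / l) := by ring
  linarith

theorem img_le {ι : Type*} (s : Finset ι) (e : ι → G) {T : Finset G} (hT : T ⊆ s.image e)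
    {φ : G → ℝ} (h0 : ∀ g, 0 ≤ φ g) : ∑ t ∈ T, φ t ≤ ∑ i ∈ s, φ (e i) := by
  rw [sum_comp φ e]
  refine (sum_le_sum_of_subset_of_nonneg hT fun _ _ _ => h0 _).trans (sum_le_sum fun w hw => ?_)
  obtain ⟨i, hi, rfl⟩ := mem_image.1 hw
  have : 1 ≤ #{a ∈ s | e a = e i} := card_pos.2 ⟨i, by simp [hi]⟩
  rw [nsmul_eq_mul]
  exact le_mul_of_one_le_left (h0 _) (by exact_mod_cast this)

noncomputable def TT (S D Z : Finset G) : Finset G := ((D ×ˢ S).image fun z => z.2 * z.1) \ Z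

theorem good {S : Finset G} (hS : Sid S) (D Z : Finset G) {φ : G → ℝ} (h0 : ∀ g, 0 ≤ φ g)
    {C : ℝ} (hC : ∀ g, φ g ≤ C) :
    ∑ g ∈ D, ∑ u ∈ S, φ (u * g) ≤ ∑ t ∈ TT S D Z, φ t + #D * (#Z + 2 * #D) * C := by
  have C0 : 0 ≤ C := (h0 1).trans (hC 1)
  let B : G → G → Prop := fun g u => u * g ∈ Z ∨ ∃ g' ∈ D.erase g, ∃ u' ∈ S, u * g = u' * g'
  have h1 : ∀ g, (#{u ∈ S | B g u} : ℝ) ≤ #Z + 2 * #D := by
    intro g
    have a1 : {u ∈ S | B g u} ⊆ Z.image (· * g⁻¹) ∪ (D.erase g).biUnion fun g' =>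
        {z ∈ S.offDiag | z.1⁻¹ * z.2 = g' * g⁻¹}.image Prod.snd := by
      intro u hu
      obtain ⟨hu, h | ⟨g', hg', u', hu', h⟩⟩ := mem_filter.1 hu
      · exact mem_union_left _ (mem_image.2 ⟨_, h, by simp⟩)
      · refine mem_union_right _ (mem_biUnion.2 ⟨g', hg', mem_image.2 ⟨(u', u), mem_filter.2
          ⟨mem_offDiag.2 ⟨hu', hu, ?_⟩, ?_⟩, rfl⟩⟩)
        · rintro (rfl : u' = u)
          exact (mem_erase.1 hg').1 (mul_left_cancel h).symm
        · rw [inv_mul_eq_iff_eq_mul, ← mul_assoc, ← h]; simp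
    have a2 := (card_le_card a1).trans (card_union_le _ _)
    have a3 := card_biUnion_le_card_mul (D.erase g) (fun g' =>
        {z ∈ S.offDiag | z.1⁻¹ * z.2 = g' * g⁻¹}.image Prod.snd) 2
        fun g' _ => card_image_le.trans (hS _)
    have a4 := card_image_le (s := Z) (f := (· * g⁻¹))
    have a5 := card_erase_le (s := D) (a := g)
    exact_mod_cast (by omega : #{u ∈ S | B g u} ≤ #Z + 2 * #D)
  calc _ ≤ ∑ g ∈ D, (∑ u ∈ S with ¬B g u, φ (u * g) + (#Z + 2 * #D) * C) := by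
        refine sum_le_sum fun g _ => ?_
        rw [← sum_filter_add_sum_filter_not S (B g), add_comm]
        gcongr
        refine (sum_le_card_nsmul _ _ C fun _ _ => hC _).trans ?_
        rw [nsmul_eq_mul]
        exact mul_le_mul_of_nonneg_right (h1 g) C0
    _ ≤ _ := by
        rw [sum_add_distrib, sum_const, nsmul_eq_mul, ← mul_assoc]
        gcongr
        rw [← sum_finset_product ({z ∈ D ×ˢ S | ¬B z.1 z.2}) D (fun g => {u ∈ S | ¬B g u})
          (f := fun z => φ (z.2 * z.1)) (by simp; tauto), ← sum_image]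
        · refine sum_le_sum_of_subset_of_nonneg (fun t ht => ?_) fun _ _ _ => h0 _
          obtain ⟨z, hz, rfl⟩ := mem_image.1 ht
          obtain ⟨z1, z2⟩ := mem_filter.1 hz
          exact mem_sdiff.2 ⟨mem_image_of_mem _ z1, fun hh => z2 (Or.inl hh)⟩
        · intro z hz z' hz' h
          obtain ⟨z1, z2⟩ := mem_filter.1 hz
          obtain ⟨z3, z4⟩ := mem_filter.1 hz'
          rw [mem_product] at z1 z3
          by_cases hh : z'.1 = z.1
          · simp only [hh, mul_left_inj] at h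
            exact Prod.ext hh.symm h
          · exact (z2 (Or.inr ⟨z'.1, mem_erase.2 ⟨hh, z3.1⟩, z'.2, z3.2, h⟩)).elim

end Pool.Agent.H.MP_09b497_an
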