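import Pool.Agent.H.MP_09b497_an.A

namespace Pool.Agent.H.MP_09b497_an

open Finset
open scoped Classical

variable {G : Type*} [Group G]

noncomputable def un (S : Finset G) : G → ℂ := fun g => if g ∈ S then ((#S : ℝ)⁻¹ : ℝ) else 0

theorem un_le (S : Finset G) (g : G) : ‖un S g‖ ≤ (#S : ℝ)⁻¹ := by
  unfold un; split_ifs <;> simp

theorem un_L1 (S : Finset G) : L1 (un S) :=
  summable_of_ne_finset_zero (s := S) fun g hg => by simp [un, hg]

theorem un_nrm (S : Finset G) : nrm (un S) ≤ 1 := by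
  unfold nrm
  rw [tsum_eq_sum (s := S) fun g hg => by simp [un, hg]]
  refine (sum_le_card_nsmul _ _ _ fun g _ => un_le S g).trans ?_
  rw [nsmul_eq_mul]
  exact mul_inv_le_one

theorem conv_un (S : Finset G) (y : G → ℂ) (t : G) :
    conv (un S) y t = ((#S : ℝ)⁻¹ : ℝ) * ∑ u ∈ S, y (u⁻¹ * t) := by
  unfold conv
  rw [tsum_eq_sum (s := S) fun g hg => by simp [un, hg], mul_sum]
  exact sum_congr rfl fun g hg => by simp [un, hg]

theorem L1.le {y : G → ℂ} (hy : L1 y) (g : G) : ‖y g‖ ≤ nrm y :=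
  Summable.le_tsum hy g fun _ _ => norm_nonneg _

theorem L1.add {x y : G → ℂ} (hx : L1 x) (hy : L1 y) :
    L1 (x + y) ∧ nrm (x + y) ≤ nrm x + nrm y := by
  have h := Summable.of_nonneg_of_le (fun _ => norm_nonneg _)
    (fun g => norm_add_le (x g) (y g)) (Summable.add hx hy)
  exact ⟨h, (h.tsum_le_tsum (fun g => norm_add_le _ _) (Summable.add hx hy)).trans
    (Summable.tsum_add hx hy).le⟩

theorem L1.sub {x y : G → ℂ} (hx : L1 x) (hy : L1 y) : L1 (x - y) :=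
  Summable.of_nonneg_of_le (fun _ => norm_nonneg _)
    (fun g => norm_sub_le (x g) (y g)) (Summable.add hx hy)

theorem conv_s {x y : G → ℂ} (hx : L1 x) (hy : L1 y) (t : G) :
    Summable fun h => ‖x h‖ * ‖y (h⁻¹ * t)‖ :=
  (sumb (fun _ => norm_nonneg _) hx (fun _ => norm_nonneg _) fun _ => hy.le _).1

theorem conv_T {x y : G → ℂ} (hx : L1 x) (hy : L1 y) (T : Finset G) :
    ∑ t ∈ T, ‖conv x y t‖ ≤ ∑' h, ‖x h‖ * ∑ t ∈ T, ‖y (h⁻¹ * t)‖ := by
  simp only [mul_sum]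
  rw [Summable.tsum_finsetSum fun t _ => conv_s hx hy t]
  refine sum_le_sum fun t _ => ?_
  simp only [← norm_mul]
  exact norm_tsum_le_tsum_norm (by simpa only [norm_mul] using conv_s hx hy t)

theorem conv_add {x s y : G → ℂ} (hx : L1 x) (hs : L1 s) (hy : L1 y) (t : G) :
    conv (x + s) y t = conv x y t + conv s y t := by
  unfold conv
  simp only [Pi.add_apply, add_mul]
  exact Summable.tsum_add (.of_norm (by simpa only [norm_mul] using conv_s hx hy t))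
    (.of_norm (by simpa only [norm_mul] using conv_s hs hy t))

theorem tr_le {q : G → ℝ} (h0 : ∀ g, 0 ≤ q g) (hq : Summable q) (T : Finset G) (h : G) :
    ∑ t ∈ T, q (h⁻¹ * t) ≤ ∑' g, q g :=
  fin_le h0 hq T _ fun a _ b _ hab => by simpa using hab

theorem core {S : Finset G} (hS : Sid S) (hn : 0 < #S) {s s' b : G → ℂ} (hs : L1 s) (hs' : L1 s')
    (hb : L1 b) {ε γ l : ℝ} (ns : nrm s ≤ ε) (ns' : nrm s' ≤ ε) (hε : ε ≤ 1) (nb : nrm b ≤ 1)
    (bγ : ∀ k, ‖b k‖ ≤ γ) (nγ : (#S : ℝ)⁻¹ ≤ γ) (hl : 0 < l) (D Dp Ep Z : Finset G)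
    (hD : ∀ k ∉ Dp, ‖(b + s') k‖ ≤ γ) (hE : ∀ h ∉ Ep, ‖(un S + s) h‖ ≤ γ)
    (hZ : ∀ t ∉ Z, conv (un S + s) (b + s') t = conv (un S) b t)
    (hβ : ∀ h ∈ Ep, ∑ t ∈ TT S D Z, ‖b (h⁻¹ * t)‖ ≤ ε) :
    ∑ g ∈ D, ‖(b + s') g‖ ≤ ε * ∑ g ∈ Dp, ‖(b + s') g‖ +
      2 * ε * (∑ g ∈ Ep, ‖(un S + s) g‖ + #Ep * (#S : ℝ)⁻¹) + 2 * (#D * (2 * l + 12 * (2 * γ) / l)) +
      #D * (#Z + 2 * #D + 2) * (2 * (#S : ℝ)⁻¹) := by
  obtain ⟨hy, ny⟩ := hb.add hs'
  set y := b + s' with hy'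
  set ν : ℝ := (#S : ℝ)⁻¹ with hν
  have ν0 : 0 < ν := by positivity
  have νn : #S * ν = 1 := mul_inv_cancel₀ (by positivity)
  have γ0 : 0 ≤ γ := by linarith
  have y2 : nrm y ≤ 2 := by linarith
  have hT : TT S D Z ⊆ (D ×ˢ S).image fun z => z.2 * z.1 := sdiff_subset
  have h1 : ∀ g, ‖y g‖ ≤ ∑ u ∈ S, ‖conv (un S) y (u * g)‖ + 4 * ν := by
    intro g
    have a1 : ∀ u ∈ S, ν * ‖y g‖ ≤ ‖conv (un S) y (u * g)‖ +
        ν * ∑ v ∈ S.erase u, ‖y ((u⁻¹ * v)⁻¹ * g)‖ := by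
      intro u hu
      rw [conv_un, norm_mul, Complex.norm_real, ← hν, Real.norm_eq_abs, abs_of_pos ν0, ← mul_add,
        ← add_sum_erase S _ hu, inv_mul_cancel_left]
      refine mul_le_mul_of_nonneg_left ?_ ν0.le
      have a2 := norm_sum_le (S.erase u) fun v => y (v⁻¹ * (u * g))
      have a3 := norm_sub_le (y g + ∑ v ∈ S.erase u, y (v⁻¹ * (u * g)))
        (∑ v ∈ S.erase u, y (v⁻¹ * (u * g)))
      rw [add_sub_cancel_right] at a3
      simp only [mul_inv_rev, inv_inv, mul_assoc]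
      linarith only [a2, a3]
    have a2 := sum_le_sum a1
    rw [sum_add_distrib, sum_const, nsmul_eq_mul, ← mul_assoc, νn, one_mul, ← mul_sum] at a2
    let e : G ≃ G := (Equiv.inv G).trans (Equiv.mulRight g)
    have a3 := sid_sum hS (q := fun w => ‖y (e w)‖) (fun _ => norm_nonneg _)
      (e.summable_iff.2 hy)
    rw [e.tsum_eq fun w => ‖y w‖] at a3
    have a4 : ∑ u ∈ S, ∑ v ∈ S.erase u, ‖y ((u⁻¹ * v)⁻¹ * g)‖ ≤ 4 := a3.trans (by
      unfold nrm at y2; linarith only [y2])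
    nlinarith only [a2, a4, ν0]
  have h2 := good hS D Z (φ := fun t => ‖conv (un S) y t‖) (fun _ => norm_nonneg _)
    (C := 2 * ν) fun t => by
      rw [conv_un, norm_mul, Complex.norm_real, ← hν, Real.norm_eq_abs, abs_of_pos ν0, mul_comm]
      refine mul_le_mul_of_nonneg_right ((norm_sum_le _ _).trans (le_trans ?_ y2)) ν0.le
      exact fin_le (q := fun g => ‖y g‖) (fun _ => norm_nonneg _) hy S _
        fun a _ b _ hab => by simpa using hab
  have h3 : ∑ t ∈ TT S D Z, ‖conv (un S) y t‖ ≤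
      ∑ t ∈ TT S D Z, ‖conv (un S) b t‖ + ∑ t ∈ TT S D Z, ‖conv s y t‖ := by
    rw [← sum_add_distrib]
    refine sum_le_sum fun t ht => ?_
    rw [← hZ t (mem_sdiff.1 ht).2, conv_add (un_L1 S) hs hy]
    have := norm_sub_le (conv (un S) y t + conv s y t) (conv s y t)
    rwa [add_sub_cancel_right] at this
  have hbil : ∀ p q : G → ℝ, (∀ g, 0 ≤ p g) → Summable p → (∀ g, 0 ≤ q g) → Summable q →
      ∑' g, p g ≤ 2 → ∑' g, q g ≤ 2 → (∀ g, p g ≤ 2 * γ) → (∀ g, q g ≤ 2 * γ) →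
      Summable (fun h => p h * ∑ t ∈ TT S D Z, q (h⁻¹ * t)) ∧
      ∑' h, p h * ∑ t ∈ TT S D Z, q (h⁻¹ * t) ≤ #D * (2 * l + 12 * (2 * γ) / l) := by
    intro p q p0 hp q0 hq p2 q2 pγ qγ
    have a1 := (sumb p0 hp (fun h => sum_nonneg fun t _ => q0 (h⁻¹ * t))
      fun h => tr_le q0 hq (TT S D Z) h).1
    have a2 := fun g => bil hS p0 hp q0 hq p2 q2 pγ qγ hl g
    refine ⟨a1, le_trans (a1.tsum_le_tsum (fun h => ?_)
      (summable_sum (s := D) fun g _ => (a2 g).1)) ?_⟩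
    · rw [← mul_sum, ← sum_product']
      exact mul_le_mul_of_nonneg_left (img_le _ _ hT (φ := fun t => q (h⁻¹ * t)) fun _ => q0 _)
        (p0 h)
    · rw [Summable.tsum_finsetSum fun g _ => (a2 g).1, ← nsmul_eq_mul]
      exact sum_le_card_nsmul _ _ _ fun g _ => (a2 g).2
  have h4 := (conv_T (un_L1 S) hb (TT S D Z)).trans (hbil _ _ (fun _ => norm_nonneg _) (un_L1 S)
    (fun _ => norm_nonneg _) hb ((un_nrm S).trans one_le_two) (nb.trans one_le_two)
    (fun g => by linarith only [un_le S g, nγ, γ0]) fun g => by linarith only [bγ g, γ0]).2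
  set p : G → ℝ := fun h => if h ∈ Ep then 0 else ‖s h‖
  set q : G → ℝ := fun h => if h ∈ Dp then 0 else ‖y h‖
  set r : G → ℝ := fun h => if h ∈ Ep then ‖s h‖ else 0
  set o : G → ℝ := fun h => if h ∈ Dp then ‖y h‖ else 0
  have p0 : ∀ g, 0 ≤ p g := fun g => by simp only [p]; split_ifs <;> simp
  have q0 : ∀ g, 0 ≤ q g := fun g => by simp only [q]; split_ifs <;> simp
  have o0 : ∀ g, 0 ≤ o g := fun g => by simp only [o]; split_ifs <;> simp
  have p1 : ∀ g, p g ≤ ‖s g‖ := fun g => by simp only [p]; split_ifs <;> simp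
  have q1 : ∀ g, q g ≤ ‖y g‖ := fun g => by simp only [q]; split_ifs <;> simp
  have hp := Summable.of_nonneg_of_le p0 p1 hs
  have hq := Summable.of_nonneg_of_le q0 q1 hy
  have hr : HasSum r (∑ g ∈ Ep, ‖s g‖) := by
    rw [show ∑ g ∈ Ep, ‖s g‖ = ∑ g ∈ Ep, r g from sum_congr rfl fun g hg => by simp [r, hg]]
    exact hasSum_sum_of_ne_finset_zero fun g hg => by simp [r, hg]
  have ho : HasSum o (∑ g ∈ Dp, ‖y g‖) := by
    rw [show ∑ g ∈ Dp, ‖y g‖ = ∑ g ∈ Dp, o g from sum_congr rfl fun g hg => by simp [o, hg]]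
    exact hasSum_sum_of_ne_finset_zero fun g hg => by simp [o, hg]
  have sx : ∀ g, ‖s g‖ ≤ ‖(un S + s) g‖ + ν := fun g => by
    have := norm_sub_le (un S g + s g) (un S g)
    rw [add_sub_cancel_left] at this
    exact this.trans (add_le_add le_rfl (un_le S g))
  obtain ⟨b1, b2⟩ := hbil p q p0 hp q0 hq
    ((hp.tsum_le_tsum p1 hs).trans (ns.trans (by linarith only [hε]))) ((hq.tsum_le_tsum q1 hy).trans y2)
    (fun g => by
      simp only [p]; split_ifs with h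
      · linarith only [γ0]
      · linarith only [hE g h, sx g, nγ])
    fun g => by
      simp only [q]; split_ifs with h
      · linarith only [γ0]
      · linarith only [hD g h, γ0]
  have M0 : 0 ≤ ∑ g ∈ Dp, ‖y g‖ := sum_nonneg fun _ _ => norm_nonneg _
  have ε0 : 0 ≤ ε := le_trans (tsum_nonneg fun _ => norm_nonneg _) ns
  have h5 : ∑ t ∈ TT S D Z, ‖conv s y t‖ ≤ ε * ∑ g ∈ Dp, ‖y g‖ + (∑ g ∈ Ep, ‖s g‖) * (2 * ε) +
      #D * (2 * l + 12 * (2 * γ) / l) := by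
    refine (conv_T hs hy _).trans ?_
    have a1 := (sumb (fun _ => norm_nonneg _) hs
      (fun h => sum_nonneg fun t _ => norm_nonneg (y (h⁻¹ * t)))
      fun h => tr_le (q := fun g => ‖y g‖) (fun _ => norm_nonneg _) hy (TT S D Z) h).1
    have a2 := ((Summable.hasSum hs).mul_right (∑ g ∈ Dp, ‖y g‖)).add (hr.mul_right (2 * ε))
    have a3 := a2.add b1.hasSum
    refine (hasSum_le (fun h => ?_) a1.hasSum a3).trans ?_
    · by_cases hh : h ∈ Ep
      · have c1 : ∑ t ∈ TT S D Z, ‖y (h⁻¹ * t)‖ ≤ 2 * ε := by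
          have c2 := tr_le (q := fun g => ‖s' g‖) (fun _ => norm_nonneg _) hs' (TT S D Z) h
          have c3 : ∑ t ∈ TT S D Z, ‖y (h⁻¹ * t)‖ ≤
              ∑ t ∈ TT S D Z, (‖b (h⁻¹ * t)‖ + ‖s' (h⁻¹ * t)‖) :=
            sum_le_sum fun t _ => norm_add_le _ _
          rw [sum_add_distrib] at c3
          unfold nrm at ns'
          linarith only [hβ h hh, c2, c3, ns']
        simp only [p, r, if_pos hh, zero_mul, add_zero]
        exact (mul_le_mul_of_nonneg_left c1 (norm_nonneg _)).trans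
          (le_add_of_nonneg_left (mul_nonneg (norm_nonneg _) M0))
      · have c1 := tr_le o0 ho.summable (TT S D Z) h
        rw [ho.tsum_eq] at c1
        have c2 : ∑ t ∈ TT S D Z, ‖y (h⁻¹ * t)‖ =
            ∑ t ∈ TT S D Z, o (h⁻¹ * t) + ∑ t ∈ TT S D Z, q (h⁻¹ * t) := by
          rw [← sum_add_distrib]
          exact sum_congr rfl fun t _ => by simp only [o, q]; split_ifs <;> simp
        simp only [p, r, if_neg hh, zero_mul, add_zero]
        rw [c2, mul_add]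
        exact add_le_add (mul_le_mul_of_nonneg_left c1 (norm_nonneg _)) le_rfl
    · have := mul_le_mul_of_nonneg_right ns M0
      unfold nrm at this
      exact add_le_add (add_le_add this le_rfl) b2
  have h6 : ∑ g ∈ Ep, ‖s g‖ ≤ ∑ g ∈ Ep, ‖(un S + s) g‖ + #Ep * ν := by
    rw [← nsmul_eq_mul, ← sum_const, ← sum_add_distrib]
    exact sum_le_sum fun g _ => sx g
  have h7 := sum_le_sum fun g (_ : g ∈ D) => h1 g
  rw [sum_add_distrib, sum_const, nsmul_eq_mul] at h7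
  have h8 := mul_le_mul_of_nonneg_right h6 (show 0 ≤ 2 * ε by linarith only [ε0])
  linarith only [h7, h2, h3, h4, h5, h8]

end Pool.Agent.H.MP_09b497_an
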