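import Pool.Agent.H.MP_09b497_an.B

namespace Pool.Agent.H.MP_09b497_an

open Finset
open scoped Classical

variable {G : Type*} [Group G]

omit [Group G] in
theorem hv {f : G → ℂ} (hf : L1 f) (γ : ℝ) (h : 0 < γ) :
    ∃ D : Finset G, (∀ g, g ∈ D ↔ γ ≤ ‖f g‖) ∧ #D * γ ≤ nrm f ∧ ∑ g ∈ D, ‖f g‖ ≤ nrm f := by
  have h1 := (Summable.tendsto_cofinite_zero hf).eventually (gt_mem_nhds h)
  rw [Filter.eventually_cofinite] at h1
  have h2 := Summable.sum_le_tsum h1.toFinset (fun _ _ => norm_nonneg _) hf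
  refine ⟨h1.toFinset, by simp, le_trans ?_ h2, h2⟩
  rw [← nsmul_eq_mul]
  exact card_nsmul_le_sum _ _ _ fun g hg => by simpa using hg

theorem exn {A : ℝ} (h : 0 < A) : ∃ n : ℕ, 0 < n ∧ (n : ℝ)⁻¹ ≤ A := by
  obtain ⟨n, hn⟩ := exists_nat_one_div_lt h
  exact ⟨n + 1, n.succ_pos, by push_cast; rw [← one_div]; exact hn.le⟩

def iv (f : G → ℂ) : G → ℂ := fun g => f g⁻¹

theorem L1.iv {f : G → ℂ} (hf : L1 f) : L1 (iv f) := (Equiv.inv G).summable_iff.2 hf

theorem nrm_iv (f : G → ℂ) : nrm (iv f) = nrm f := (Equiv.inv G).tsum_eq fun g => ‖f g‖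

theorem conv_iv (x y : G → ℂ) (t : G) : conv (iv y) (iv x) t = conv x y t⁻¹ := by
  unfold conv iv
  rw [← (Equiv.mulLeft t⁻¹).tsum_eq fun h => x h * y (h⁻¹ * t⁻¹)]
  exact tsum_congr fun h => by simp [mul_comm]

theorem TT_card (S D Z : Finset G) : #(TT S D Z) ≤ #D * #S :=
  (card_le_card sdiff_subset).trans (card_image_le.trans (card_product _ _).le)

theorem main [Infinite G] {δ : ℝ} (δ0 : 0 < δ) (δ1 : δ ≤ 1) : ∃ S S' : Finset G,
    ∀ s s' : G → ℂ, L1 s → L1 s' → nrm s ≤ 1 / 12 → nrm s' ≤ 1 / 12 →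
      conv (un S + s) (iv (un S') + s') ≠ conv (un S) (iv (un S')) + Pi.single 1 (δ : ℂ) := by
  set τ := δ / 10000 with hτ
  have τ0 : 0 < τ := by positivity
  let γ : ℕ → ℝ := fun j => Nat.rec (δ / 4) (fun _ r => (τ * r) ^ 2) j
  have γs : ∀ j, γ (j + 1) = (τ * γ j) ^ 2 := fun _ => rfl
  have γ0 : ∀ j, 0 < γ j ∧ γ j ≤ 1 := by
    intro j
    induction j with
    | zero => exact ⟨show 0 < δ / 4 by positivity, show δ / 4 ≤ 1 by linarith⟩
    | succ j ih =>
      rw [γs]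
      exact ⟨pow_pos (mul_pos τ0 ih.1) 2, pow_le_one₀ (mul_pos τ0 ih.1).le
        (mul_le_one₀ (by linarith) ih.1.le ih.2)⟩
  have γm : Antitone γ := antitone_nat_of_succ_le fun j => by
    obtain ⟨a1, a2⟩ := γ0 j
    have a3 : τ * γ j ≤ γ j := mul_le_of_le_one_left a1.le (by linarith)
    rw [γs]
    exact (pow_le_of_le_one (mul_pos τ0 a1).le (by linarith) two_ne_zero).trans a3
  obtain ⟨J, hJ⟩ := pow_unbounded_of_one_lt (16 / δ) (one_lt_two (α := ℝ))
  have gJ := (γ0 J).1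
  set L := 2 / γ J with hL
  have L0 : 0 < L := by positivity
  obtain ⟨n, n0, hn⟩ := exn (lt_min gJ (show 0 < τ / (4 * L ^ 2 + 7 * L) by positivity))
  have n0' : (0 : ℝ) < n := by exact_mod_cast n0
  obtain ⟨n', m0, hn'⟩ := exn (lt_min gJ (lt_min (show 0 < 1 / (12 * (L * n)) by positivity)
    (show 0 < τ / (L + 2 * L * (3 + L * n + 2 * L)) by positivity)))
  simp only [le_min_iff] at hn hn'
  obtain ⟨n1, n2⟩ := hn
  obtain ⟨m1, m2, m3⟩ := hn'
  rw [le_div_iff₀ (by positivity)] at n2 m2 m3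
  obtain ⟨S, rfl, hS⟩ := exSid (G := G) n
  obtain ⟨S', rfl, hS'⟩ := exSid (G := G) n'
  refine ⟨S, S', fun s s' hs hs' ns ns' h => ?_⟩
  have hb := (un_L1 S').iv
  have nb : nrm (iv (un S')) ≤ 1 := (nrm_iv _).trans_le (un_nrm S')
  have na : nrm (iv (un S)) ≤ 1 := (nrm_iv _).trans_le (un_nrm S)
  obtain ⟨hx, nx⟩ := (un_L1 S).add hs
  obtain ⟨hy, ny⟩ := hb.add hs'
  have x2 : nrm (un S + s) ≤ 2 := by linarith [un_nrm S]
  have y2 : nrm (iv (un S') + s') ≤ 2 := by linarith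
  choose E E1 E2 E3 using fun j => hv hx (γ j) (γ0 j).1
  choose D D1 D2 D3 using fun j => hv hy (γ j) (γ0 j).1
  have cd : ∀ (F : ℕ → Finset G) j, j ≤ J → #(F j) * γ j ≤ 2 → (#(F j) : ℝ) ≤ L := by
    intro F j hj h2
    rw [hL, le_div_iff₀ gJ]
    exact le_trans (mul_le_mul_of_nonneg_left (γm hj) (Nat.cast_nonneg _)) h2
  have ce : ∀ (F : ℕ → Finset G) j, #(F j) * γ j ≤ 2 →
      2 * (#(F j) * (2 * (τ * γ j) + 12 * (2 * γ (j + 1)) / (τ * γ j))) ≤ 104 * τ := by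
    intro F j h2
    have := (γ0 j).1
    rw [γs, show 12 * (2 * (τ * γ j) ^ 2) / (τ * γ j) = 24 * (τ * γ j) by field_simp; norm_num]
    nlinarith only [h2, τ0]
  have ν0 : 0 ≤ (#S : ℝ)⁻¹ := by positivity
  have ν1 : 0 ≤ (#S' : ℝ)⁻¹ := by positivity
  have step : ∀ j < J, ∑ g ∈ D j, ‖(iv (un S') + s') g‖ + ∑ g ∈ E j, ‖(un S + s) g‖ ≤
      (∑ g ∈ D (j + 1), ‖(iv (un S') + s') g‖ + ∑ g ∈ E (j + 1), ‖(un S + s) g‖) / 4 + δ / 16 := by
    intro j hj
    have g1 : γ J ≤ γ (j + 1) := γm hj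
    have l0 : 0 < τ * γ j := mul_pos τ0 (γ0 j).1
    have d0 := cd D j hj.le ((D2 j).trans y2)
    have e0 := cd E j hj.le ((E2 j).trans x2)
    have d1 := cd D (j + 1) hj ((D2 _).trans y2)
    have e1 := cd E (j + 1) hj ((E2 _).trans x2)
    have c1 := core hS n0 hs hs' hb ns ns' (by norm_num) nb (γ := γ (j + 1))
      (fun k => (un_le S' _).trans (m1.trans g1)) (n1.trans g1) l0 (D j) (D (j + 1)) (E (j + 1)) {1}
      (fun k hk => (not_le.1 (mt (D1 _ k).2 hk)).le) (fun k hk => (not_le.1 (mt (E1 _ k).2 hk)).le)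
      (fun t ht => by rw [h, Pi.add_apply, Pi.single_eq_of_ne (by simpa using ht), add_zero])
      fun h _ => by
        refine (sum_le_card_nsmul _ _ _ fun t _ => un_le S' _).trans ?_
        have a1 : (#(TT S (D j) {1}) : ℝ) ≤ #(D j) * #S := by exact_mod_cast TT_card S (D j) {1}
        have a2 : (#(D j) : ℝ) * #S ≤ L * #S := by gcongr
        rw [nsmul_eq_mul]
        nlinarith only [a1, a2, m2, ν1]
    let e := (Equiv.inv G).toEmbedding
    let Z := insert 1 ((D (j + 1) ×ˢ S).image fun z => z.1⁻¹ * z.2⁻¹)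
    have c2 := core hS' m0 hs'.iv hs.iv (un_L1 S).iv ((nrm_iv _).trans_le ns')
      ((nrm_iv _).trans_le ns) (by norm_num) na (γ := γ (j + 1))
      (fun k => (un_le S _).trans (n1.trans g1)) (m1.trans g1) l0 ((E j).map e)
      ((E (j + 1)).map e) ((D (j + 1)).map e) Z
      (fun k hk => (not_le.1 (mt (E1 (j + 1) k⁻¹).2 (by simpa [e] using hk))).le)
      (fun k hk => by
        have := (not_le.1 (mt (D1 (j + 1) k⁻¹).2 (by simpa [e] using hk))).le
        simpa [iv] using this)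
      (fun t ht => by
        have a1 : un S' + iv s' = iv (iv (un S') + s') := by ext; simp [iv]
        have a2 : un S' = iv (iv (un S')) := by ext; simp [iv]
        have a3 : t⁻¹ ≠ 1 := fun hh => ht (by simp [Z, inv_eq_one.1 hh])
        rw [a1, show iv (un S) + iv s = iv (un S + s) from rfl, conv_iv, h, Pi.add_apply,
          Pi.single_eq_of_ne a3, add_zero, ← conv_iv, ← a2])
      fun h hh => by
        refine (sum_eq_zero fun t ht => ?_).trans_le (by norm_num)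
        have a1 : (h⁻¹ * t)⁻¹ ∉ S := fun a => (mem_sdiff.1 ht).2 (mem_insert_of_mem
          (mem_image.2 ⟨(h⁻¹, (h⁻¹ * t)⁻¹), mem_product.2 ⟨by simpa [e] using hh, a⟩, by simp⟩))
        simp only [iv, un, if_neg a1, norm_zero]
    have z1 : (#Z : ℝ) ≤ 1 + L * #S := by
      have a1 : #Z ≤ #(D (j + 1)) * #S + 1 := (card_insert_le _ _).trans
        (Nat.succ_le_succ (card_image_le.trans (card_product _ _).le))
      have a2 : (#Z : ℝ) ≤ #(D (j + 1)) * #S + 1 := by exact_mod_cast a1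
      have a3 : (#(D (j + 1)) : ℝ) * #S ≤ L * #S := by gcongr
      linarith
    have f1 : ∀ F : Finset G, ∑ g ∈ F.map e, ‖(iv (un S) + iv s) g‖ = ∑ g ∈ F, ‖(un S + s) g‖ :=
      fun F => by rw [sum_map]; exact sum_congr rfl fun g _ => by simp [e, iv]
    have f2 : ∀ F : Finset G, ∑ g ∈ F.map e, ‖(un S' + iv s') g‖ =
        ∑ g ∈ F, ‖(iv (un S') + s') g‖ :=
      fun F => by rw [sum_map]; exact sum_congr rfl fun g _ => by simp [e, iv]
    rw [f1, f1, f2, card_map, card_map] at c2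
    rw [card_singleton] at c1
    have k1 := ce D j ((D2 j).trans y2)
    have k2 := ce E j ((E2 j).trans x2)
    have k3 : (#(D j) : ℝ) * ((1 : ℕ) + 2 * #(D j) + 2) * (2 * (#S : ℝ)⁻¹) ≤
        L * (1 + 2 * L + 2) * (2 * (#S : ℝ)⁻¹) := by push_cast; gcongr
    have k4 : (#(E j) : ℝ) * (#Z + 2 * #(E j) + 2) * (2 * (#S' : ℝ)⁻¹) ≤
        L * (1 + L * #S + 2 * L + 2) * (2 * (#S' : ℝ)⁻¹) := by gcongr
    have k5 := mul_le_mul_of_nonneg_right e1 ν0
    have k6 := mul_le_mul_of_nonneg_right d1 ν1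
    have k7 := mul_nonneg L0.le ν0
    have k8 := mul_nonneg L0.le ν1
    linarith only [c1, c2, k1, k2, k3, k4, k5, k6, k7, k8, n2, m3, hτ, δ0]
  have base : δ / 4 ≤ ∑ g ∈ D 0, ‖(iv (un S') + s') g‖ := by
    by_contra hh
    have a1 : ∀ g, ‖(iv (un S') + s') g‖ ≤ δ / 4 := fun g => by
      by_contra h2
      exact hh ((not_le.1 h2).le.trans (single_le_sum (f := fun g => ‖(iv (un S') + s') g‖)
        (fun _ _ => norm_nonneg _) ((D1 0 g).2 (not_le.1 h2).le)))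
    have a2 := conv_T hx hy {1}
    have a3 := conv_T (un_L1 S) hb {1}
    simp only [sum_singleton] at a2 a3
    have a4 := (sumb (fun _ => norm_nonneg _) hx (fun _ => norm_nonneg _)
      fun h => a1 (h⁻¹ * 1)).2
    have a5 := (sumb (fun _ => norm_nonneg _) (un_L1 S) (fun _ => norm_nonneg _)
      fun h => (un_le S' (h⁻¹ * 1)⁻¹).trans (m1.trans (γm (Nat.zero_le J)))).2
    have a6 := norm_sub_le (conv (un S) (iv (un S')) 1 + δ) (conv (un S) (iv (un S')) 1)
    rw [h, Pi.add_apply, Pi.single_eq_same] at a2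
    rw [add_sub_cancel_left, Complex.norm_real, Real.norm_eq_abs, abs_of_pos δ0] at a6
    have a7 : γ 0 = δ / 4 := rfl
    have a8 := un_nrm S
    unfold nrm at a8 x2
    have a9 := a3.trans a5
    rw [a7] at a9
    nlinarith only [a2, a4, a6, a8, a9, x2, δ0]
  have ind : ∀ j ≤ J, 2 ^ j * (δ / 4) ≤
      ∑ g ∈ D j, ‖(iv (un S') + s') g‖ + ∑ g ∈ E j, ‖(un S + s) g‖ := by
    intro j hj
    induction j with
    | zero => simpa using base.trans (le_add_of_nonneg_right (sum_nonneg fun _ _ => norm_nonneg _))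
    | succ j ih =>
      have a1 := ih (by omega)
      have a2 := step j hj
      have a3 : δ / 4 ≤ 2 ^ j * (δ / 4) :=
        le_mul_of_one_le_left (by positivity) (one_le_pow₀ one_le_two)
      rw [pow_succ]
      linarith only [a1, a2, a3, δ0]
  rw [div_lt_iff₀ δ0] at hJ
  linarith only [ind J le_rfl, D3 J, E3 J, x2, y2, hJ]

end Pool.Agent.H.MP_09b497_an
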